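import Pool.Agent.Y752.QF.Stm3
import Pool.Agent.Y845.QF.In
import Pool.Agent.H355R3.RZ4_HE
import Pool.Agent.H423R2.RZL.HI

set_option autoImplicit false

/-! Project QF (helper752), HBF: Heath-Brown's large sieve for the four families of real primitive
characters of given parity, with a coprimality condition (helper770). -/

namespace Pool.Agent.Y770.QF

open Finset Filter Topology
open Pool.Agent.Y752.QF
open Pool.Agent.Y845.QF
open Pool.Agent.H306R2.RG (FD F8 F4 F1 cf jo Fam CG)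
open Pool.Agent.H306R2.RZ (js osf sqf LSB LSP)
open Pool.Agent.H463R2.RGFIN (Qr ch ch_spec Qr_unique)

noncomputable section

/-! ### the large sieve with exponent one -/

lemma lsp (n : ℕ) : LSP (((n : ℝ) + 2) / ((n : ℝ) + 1)) := by
  induction n with
  | zero =>
    have h := Pool.Agent.H355R3.RZ4HE.HE
    have e : (((0 : ℕ) : ℝ) + 2) / (((0 : ℕ) : ℝ) + 1) = 2 := by norm_num
    rw [e]
    exact h
  | succ n ih =>
    have hn : (0 : ℝ) ≤ n := Nat.cast_nonneg n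
    have h1 : 1 < ((n : ℝ) + 2) / ((n : ℝ) + 1) := by
      rw [one_lt_div (by positivity)]; linarith
    have h2 : ((n : ℝ) + 2) / ((n : ℝ) + 1) ≤ 2 := by
      rw [div_le_iff₀ (by positivity)]; linarith
    have h := Pool.Agent.H423R2.RZL.HI _ h1 h2 ih
    have e : (((n + 1 : ℕ) : ℝ) + 2) / (((n + 1 : ℕ) : ℝ) + 1) =
        2 - 1 / (((n : ℝ) + 2) / ((n : ℝ) + 1)) := by
      push_cast
      have h3 : (n : ℝ) + 1 ≠ 0 := by positivity
      have h4 : (n : ℝ) + 2 ≠ 0 := by positivity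
      have h5 : (n : ℝ) + 1 + 1 ≠ 0 := by positivity
      field_simp
      ring
    rw [e]
    exact h

lemma LSB_mono {M N : ℕ} {B B' : ℝ} (h : LSB M N B) (hB : B ≤ B') : LSB M N B' := fun a =>
  (h a).trans (mul_le_mul_of_nonneg_right hB (sum_nonneg fun _ _ => by positivity))

lemma lsb (ε : ℝ) (hε : 0 < ε) : ∃ C : ℝ, 0 < C ∧ ∀ M N : ℕ, 1 ≤ M → 1 ≤ N →
    LSB M N (C * ((M : ℝ) * N) ^ ε * (M + N)) := by
  obtain ⟨n, hn⟩ := exists_nat_gt (2 / ε)
  obtain ⟨C, hC, h⟩ := lsp n (ε / 2) (by positivity)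
  refine ⟨C, hC, fun M N hM hN => LSB_mono (h M N hM hN) ?_⟩
  have hM1 : (1 : ℝ) ≤ M := by exact_mod_cast hM
  have hN1 : (1 : ℝ) ≤ N := by exact_mod_cast hN
  have hN0 : (0 : ℝ) < N := by linarith
  have hMN1 : (1 : ℝ) ≤ (M : ℝ) * N := by nlinarith
  have hn0 : (0 : ℝ) < (n : ℝ) + 1 := by positivity
  have hexp : ((n : ℝ) + 2) / ((n : ℝ) + 1) = 1 + 1 / ((n : ℝ) + 1) := by
    field_simp
    ring
  have h1 : (N : ℝ) ^ (((n : ℝ) + 2) / ((n : ℝ) + 1)) ≤ N * ((M : ℝ) * N) ^ (ε / 2) := by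
    rw [hexp, Real.rpow_add hN0, Real.rpow_one]
    refine mul_le_mul_of_nonneg_left ?_ hN0.le
    calc (N : ℝ) ^ (1 / ((n : ℝ) + 1)) ≤ ((M : ℝ) * N) ^ (1 / ((n : ℝ) + 1)) := by
          refine Real.rpow_le_rpow hN0.le ?_ (by positivity)
          nlinarith
      _ ≤ ((M : ℝ) * N) ^ (ε / 2) := by
          refine Real.rpow_le_rpow_of_exponent_le hMN1 ?_
          rw [div_le_iff₀ hn0]
          rw [div_lt_iff₀ hε] at hn
          nlinarith
  have h2 : (1 : ℝ) ≤ ((M : ℝ) * N) ^ (ε / 2) := Real.one_le_rpow hMN1 (by positivity)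
  have h3 : (M : ℝ) + (N : ℝ) ^ (((n : ℝ) + 2) / ((n : ℝ) + 1)) ≤
      ((M : ℝ) * N) ^ (ε / 2) * (M + N) := by
    nlinarith
  have h4 : ((M : ℝ) * N) ^ ε = ((M : ℝ) * N) ^ (ε / 2) * ((M : ℝ) * N) ^ (ε / 2) := by
    rw [← Real.rpow_add (by linarith)]
    congr 1
    ring
  calc C * ((M : ℝ) * N) ^ (ε / 2) * (M + (N : ℝ) ^ (((n : ℝ) + 2) / ((n : ℝ) + 1)))
      ≤ C * ((M : ℝ) * N) ^ (ε / 2) * (((M : ℝ) * N) ^ (ε / 2) * (M + N)) :=
        mul_le_mul_of_nonneg_left h3 (by positivity)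
    _ = _ := by rw [h4]; ring

/-! ### indicator functions -/

lemma ls_set {M N : ℕ} {B : ℝ} (hB0 : 0 ≤ B) (h : LSB M N B) (D : Finset ℕ) (hD : D ⊆ osf N) :
    ∑ m ∈ sqf M, ‖∑ d ∈ D, (js m d : ℂ)‖ ^ 2 ≤ B * N := by
  classical
  have h1 := h (fun n => if n ∈ D then 1 else 0)
  have e1 : ∀ m : ℕ, ∑ n ∈ osf N, (if n ∈ D then (1 : ℂ) else 0) * (js m n : ℂ) =
      ∑ d ∈ D, (js m d : ℂ) := by
    intro m
    simp only [ite_mul, one_mul, zero_mul]
    rw [← Finset.sum_filter]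
    congr 1
    ext n
    rw [mem_filter]
    exact ⟨fun h => h.2, fun h => ⟨hD h, h⟩⟩
  simp only [e1] at h1
  refine h1.trans (mul_le_mul_of_nonneg_left ?_ hB0)
  have h2 : ∀ n ∈ osf N, ‖(if n ∈ D then (1 : ℂ) else 0)‖ ^ 2 ≤ 1 := by
    intro n _
    split_ifs <;> simp
  refine (sum_le_sum h2).trans ?_
  rw [sum_const, nsmul_eq_mul, mul_one]
  have h3 : (osf N).card ≤ N := by
    unfold osf
    refine (card_filter_le _ _).trans ?_
    rw [Nat.card_Icc]; omega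
  exact_mod_cast h3

/-! ### reciprocity -/

lemma js_rec1 {d m : ℕ} (hd : d % 4 = 1) (hm : Odd m) : js d m = js m d := by
  unfold js
  rw [jacobiSym.quadratic_reciprocity_one_mod_four hd hm]

lemma js_rec3 {d m : ℕ} (hd : d % 4 = 3) (hm : Odd m) :
    js d m = (if m % 4 = 1 then 1 else -1) * js m d := by
  have hd' : Odd d := by rw [Nat.odd_iff]; omega
  have hm2 : m % 2 = 1 := Nat.odd_iff.1 hm
  unfold js
  split_ifs with h
  · rw [one_mul, ← jacobiSym.quadratic_reciprocity_one_mod_four h hd']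
  · have h3 : m % 4 = 3 := by omega
    rw [jacobiSym.quadratic_reciprocity_three_mod_four hd h3]
    push_cast
    ring

lemma rec_sum (D : Finset ℕ) (hD : ∀ d ∈ D, Odd d) {m : ℕ} (hm : Odd m) :
    ‖∑ d ∈ D, (js d m : ℂ)‖ ≤ ‖∑ d ∈ D.filter (fun d => d % 4 = 1), (js m d : ℂ)‖ +
      ‖∑ d ∈ D.filter (fun d => ¬ d % 4 = 1), (js m d : ℂ)‖ := by
  rw [← Finset.sum_filter_add_sum_filter_not D (fun d => d % 4 = 1)]
  have e1 : ∑ d ∈ D.filter (fun d => d % 4 = 1), (js d m : ℂ) =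
      ∑ d ∈ D.filter (fun d => d % 4 = 1), (js m d : ℂ) := by
    refine sum_congr rfl fun d hd => ?_
    rw [js_rec1 (mem_filter.1 hd).2 hm]
  have e2 : ∑ d ∈ D.filter (fun d => ¬ d % 4 = 1), (js d m : ℂ) =
      ((if m % 4 = 1 then 1 else -1 : ℝ) : ℂ) *
        ∑ d ∈ D.filter (fun d => ¬ d % 4 = 1), (js m d : ℂ) := by
    rw [mul_sum]
    refine sum_congr rfl fun d hd => ?_
    have h1 := Nat.odd_iff.1 (hD d (mem_filter.1 hd).1)
    have h2 := (mem_filter.1 hd).2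
    rw [js_rec3 (by omega) hm]
    push_cast
    rfl
  rw [e1, e2]
  refine (norm_add_le _ _).trans (add_le_add le_rfl ?_)
  rw [norm_mul]
  have e3 : ‖((if m % 4 = 1 then 1 else -1 : ℝ) : ℂ)‖ = 1 := by
    split_ifs <;> simp
  rw [e3, one_mul]

/-! ### the families -/

open Classical in
/-- the numbers `d` of the family, with the coprimality condition -/
def DD (b : Bool) (i : Fin 4) (X l : ℕ) : Finset ℕ :=
  ((Icc 1 (X / (fam b i).r)).filter (fun d => (fam b i).A d ∧ Squarefree d)).filter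
    (fun d => Nat.Coprime ((fam b i).r * d) l)

open Classical in
theorem FMl (b : Bool) (X m l : ℕ) (hm : 1 ≤ m) :
    ∑ p ∈ (QFs b X).filter (fun p => Nat.Coprime p.1 l), cv p m =
      ∑ i : Fin 4, ∑ d ∈ DD b i X l, ((cf (fam b i) d m : ℝ) : ℂ) := by
  unfold DD
  simp only [Finset.sum_filter (fun d => Nat.Coprime _ l)]
  rw [Finset.sum_sigma' (Finset.univ : Finset (Fin 4)) (fun i =>
    (Finset.Icc 1 (X / (fam b i).r)).filter (fun d => (fam b i).A d ∧ Squarefree d))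
    (fun i d => if Nat.Coprime ((fam b i).r * d) l then ((cf (fam b i) d m : ℝ) : ℂ) else 0)]
  symm
  refine Finset.sum_bij (fun x _ => ch (fam b x.1) x.2) ?_ ?_ ?_ ?_
  · rintro ⟨i, d⟩ hx
    obtain ⟨_, hx2⟩ := Finset.mem_sigma.1 hx
    obtain ⟨hx3, hx4, hx5⟩ := Finset.mem_filter.1 hx2
    rw [mem_QFs]
    refine ch_mem b X i d hx4 hx5 ?_
    have := (Finset.mem_Icc.1 hx3).2
    rw [mul_comm]
    exact (Nat.le_div_iff_mul_le (fam_r_pos b i)).1 this
  · rintro ⟨i, d⟩ hx ⟨j, d'⟩ hy h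
    obtain ⟨_, hx2⟩ := Finset.mem_sigma.1 hx
    obtain ⟨hx3, hx4, hx5⟩ := Finset.mem_filter.1 hx2
    obtain ⟨_, hy2⟩ := Finset.mem_sigma.1 hy
    obtain ⟨hy3, hy4, hy5⟩ := Finset.mem_filter.1 hy2
    have s1 := (ch_spec CGall (fam_Fam b i) (d := d) ⟨hx4, hx5⟩).2.1.1
    have s2 := (ch_spec CGall (fam_Fam b j) (d := d') ⟨hy4, hy5⟩).2.1.1
    dsimp only at h
    rw [h] at s1
    obtain ⟨rfl, rfl⟩ := fam_uniq b i j d d' hx4 hy4 (s1.symm.trans s2)
    rfl
  · intro p hp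
    rw [mem_QFs] at hp
    obtain ⟨i, d, h1, h2, h3⟩ := mem_QF b X p hp
    refine ⟨⟨i, d⟩, ?_, ?_⟩
    · rw [Finset.mem_sigma]
      refine ⟨Finset.mem_univ _, Finset.mem_filter.2 ⟨Finset.mem_Icc.2 ⟨?_, ?_⟩, h1, h2⟩⟩
      · exact (fam_odd b i d h1).pos
      · rw [Nat.le_div_iff_mul_le (fam_r_pos b i), mul_comm, ← h3.1]
        exact hp.2.1
    · exact (Qr_unique hp.1 h3 (ch_spec CGall (fam_Fam b i) (d := d) ⟨h1, h2⟩).2.1).symm
  · rintro ⟨i, d⟩ hx
    obtain ⟨_, hx2⟩ := Finset.mem_sigma.1 hx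
    obtain ⟨hx3, hx4, hx5⟩ := Finset.mem_filter.1 hx2
    have s1 := (ch_spec CGall (fam_Fam b i) (d := d) ⟨hx4, hx5⟩).2.1.1
    have s2 := (ch_spec CGall (fam_Fam b i) (d := d) ⟨hx4, hx5⟩).2.1.2 m (by omega)
    dsimp only
    rw [← s1]
    split_ifs
    · exact s2.symm
    · rfl

lemma DD_odd (b : Bool) (i : Fin 4) (X l : ℕ) : ∀ d ∈ DD b i X l, Odd d := by
  classical
  intro d hd
  simp only [DD, mem_filter] at hd
  exact fam_odd b i d hd.1.2.1

lemma DD_sub (b : Bool) (i : Fin 4) (X l : ℕ) : DD b i X l ⊆ osf X := by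
  classical
  intro d hd
  have h0 := DD_odd b i X l d hd
  simp only [DD, mem_filter] at hd
  obtain ⟨h1, h2, h3⟩ := hd.1
  unfold osf
  rw [mem_filter, mem_Icc]
  rw [mem_Icc] at h1
  exact ⟨⟨h1.1, h1.2.trans (Nat.div_le_self _ _)⟩, h0, h3⟩

lemma eta_le (b : Bool) (i : Fin 4) : |(fam b i).η| ≤ 1 := by
  rcases fam_or b i with h | h | h | h <;> rw [h]
  · simp [F8]
  · simp [F4]
  · simp [F1]
  · simp [F1]

/-- the odd part of a squarefree number -/
def od (m : ℕ) : ℕ := m / 2 ^ (m.factorization 2)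

lemma od_odd {m : ℕ} (hm : 1 ≤ m) : Odd (od m) := by
  unfold od
  have h := Nat.not_dvd_ordCompl Nat.prime_two (show m ≠ 0 by omega)
  rw [Nat.odd_iff]
  rw [Nat.dvd_iff_mod_eq_zero] at h
  omega

lemma js_le (k : ℤ) (n : ℕ) : |js k n| ≤ 1 := by
  unfold js
  rcases jacobiSym.trichotomy k n with h | h | h <;> rw [h] <;> simp

lemma fam_bound (b : Bool) (i : Fin 4) (X l m : ℕ) (hm : 1 ≤ m) :
    ‖∑ d ∈ DD b i X l, ((cf (fam b i) d m : ℝ) : ℂ)‖ ≤
      ‖∑ d ∈ (DD b i X l).filter (fun d => d % 4 = 1), (js (od m) d : ℂ)‖ +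
      ‖∑ d ∈ (DD b i X l).filter (fun d => ¬ d % 4 = 1), (js (od m) d : ℂ)‖ := by
  refine le_trans ?_ (rec_sum (DD b i X l) (DD_odd b i X l) (od_odd hm))
  have e : ∑ d ∈ DD b i X l, ((cf (fam b i) d m : ℝ) : ℂ) =
      (((fam b i).η ^ (m.factorization 2) * js (fam b i).e (od m) : ℝ) : ℂ) *
        ∑ d ∈ DD b i X l, (js d (od m) : ℂ) := by
    rw [mul_sum]
    refine sum_congr rfl fun d _ => ?_
    have h1 : cf (fam b i) d m = (fam b i).η ^ (m.factorization 2) * js (fam b i).e (od m) *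
        js d (od m) := by
      unfold cf jo
      have h2 : Odd (m / 2 ^ (m.factorization 2)) := od_odd hm
      rw [if_pos h2]
      unfold js od
      rw [jacobiSym.mul_left]
      push_cast
      ring
    rw [h1]
    push_cast
    ring
  rw [e, norm_mul]
  have h3 : ‖(((fam b i).η ^ (m.factorization 2) * js (fam b i).e (od m) : ℝ) : ℂ)‖ ≤ 1 := by
    rw [Complex.norm_real, Real.norm_eq_abs, abs_mul, abs_pow]
    exact mul_le_one₀ (pow_le_one₀ (abs_nonneg _) (eta_le b i)) (abs_nonneg _) (js_le _ _)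
  exact mul_le_of_le_one_left (norm_nonneg _) h3

lemma sqf_mem {m M : ℕ} : m ∈ sqf M ↔ (1 ≤ m ∧ m ≤ M) ∧ Squarefree m := by
  unfold sqf
  rw [mem_filter, mem_Icc]

/-- sums over the odd parts -/
lemma od_sum (M : ℕ) (F : ℕ → ℝ) (hF : ∀ n, 0 ≤ F n) :
    ∑ m ∈ sqf M, F (od m) ≤ 2 * ∑ m ∈ sqf M, F m := by
  classical
  rw [← Finset.sum_filter_add_sum_filter_not (sqf M) (fun m => Odd m), two_mul]
  refine add_le_add ?_ ?_
  · have h1 : ∑ m ∈ (sqf M).filter (fun m => Odd m), F (od m) =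
        ∑ m ∈ (sqf M).filter (fun m => Odd m), F m := by
      refine sum_congr rfl fun m hm => ?_
      have h2 : Odd m := (mem_filter.1 hm).2
      have h3 : m.factorization 2 = 0 := by
        apply Nat.factorization_eq_zero_of_not_dvd
        rw [Nat.dvd_iff_mod_eq_zero]
        have := Nat.odd_iff.1 h2
        omega
      unfold od
      rw [h3, pow_zero, Nat.div_one]
    rw [h1]
    exact sum_le_sum_of_subset_of_nonneg (filter_subset _ _) (fun _ _ _ => hF _)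
  · have hfac : ∀ m ∈ (sqf M).filter (fun m => ¬ Odd m), m = 2 * od m ∧ od m ∈ sqf M := by
      intro m hm
      obtain ⟨h1, h2⟩ := mem_filter.1 hm
      obtain ⟨⟨h3, h4⟩, h5⟩ := sqf_mem.1 h1
      have h6 : 2 ∣ m := even_iff_two_dvd.1 (Nat.not_odd_iff_even.1 h2)
      have h7 : m.factorization 2 = 1 := by
        have h8 := h5.natFactorization_le_one 2
        have h9 : 1 ≤ m.factorization 2 :=
          (Nat.Prime.dvd_iff_one_le_factorization Nat.prime_two (by omega)).1 h6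
        omega
      have h10 : od m = m / 2 := by
        unfold od
        rw [h7, pow_one]
      refine ⟨?_, ?_⟩
      · rw [h10]; omega
      · rw [sqf_mem, h10]
        refine ⟨⟨by omega, by omega⟩, ?_⟩
        exact h5.squarefree_of_dvd (Nat.div_dvd_of_dvd h6)
    have hinj : Set.InjOn od ((sqf M).filter (fun m => ¬ Odd m) : Finset ℕ) := by
      intro m hm n hn h
      rw [(hfac m hm).1, (hfac n hn).1, h]
    rw [← Finset.sum_image (f := F) hinj]
    refine sum_le_sum_of_subset_of_nonneg ?_ (fun _ _ _ => hF _)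
    intro n hn
    obtain ⟨m, hm, rfl⟩ := mem_image.1 hn
    exact (hfac m hm).2

theorem HBF : S_HBF := by
  classical
  intro ε hε
  obtain ⟨C, hC, hls⟩ := lsb ε hε
  refine ⟨128 * C, by positivity, fun b X M l hX hM hl => ?_⟩
  have hX1 : (1 : ℝ) ≤ X := by exact_mod_cast hX
  have hM1 : (1 : ℝ) ≤ M := by exact_mod_cast hM
  set B : ℝ := C * ((M : ℝ) * X) ^ ε * (M + X) with hBdef
  have hB0 : 0 ≤ B := by positivity
  have hB := hls M X hM hX
  set G : Fin 4 → Finset ℕ → ℕ → ℝ := fun i D m => ‖∑ d ∈ D, (js m d : ℂ)‖ ^ 2 with hG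
  have hone : ∀ i : Fin 4, ∀ D : Finset ℕ, D ⊆ osf X →
      ∑ m ∈ sqf M, G i D (od m) ≤ 2 * (B * X) := by
    intro i D hD
    refine (od_sum M (G i D) (fun n => by positivity)).trans ?_
    exact mul_le_mul_of_nonneg_left (ls_set hB0 hB D hD) (by norm_num)
  have hpt : ∀ m ∈ sqf M, ‖∑ p ∈ (QFs b X).filter (fun p => Nat.Coprime p.1 l), cv p m‖ ^ 2 ≤
      ∑ i : Fin 4, 8 * (G i ((DD b i X l).filter (fun d => d % 4 = 1)) (od m) +
        G i ((DD b i X l).filter (fun d => ¬ d % 4 = 1)) (od m)) := by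
    intro m hm
    obtain ⟨⟨hm1, hm2⟩, hm3⟩ := sqf_mem.1 hm
    rw [FMl b X m l hm1]
    have h1 : ‖∑ i : Fin 4, ∑ d ∈ DD b i X l, ((cf (fam b i) d m : ℝ) : ℂ)‖ ^ 2 ≤
        4 * ∑ i : Fin 4, ‖∑ d ∈ DD b i X l, ((cf (fam b i) d m : ℝ) : ℂ)‖ ^ 2 := by
      have h2 := norm_sum_le (univ : Finset (Fin 4))
        (fun i => ∑ d ∈ DD b i X l, ((cf (fam b i) d m : ℝ) : ℂ))
      have h3 := sq_sum_le_card_mul_sum_sq (s := (univ : Finset (Fin 4)))
        (f := fun i => ‖∑ d ∈ DD b i X l, ((cf (fam b i) d m : ℝ) : ℂ)‖)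
      rw [card_univ, Fintype.card_fin] at h3
      have h4 : ‖∑ i : Fin 4, ∑ d ∈ DD b i X l, ((cf (fam b i) d m : ℝ) : ℂ)‖ ^ 2 ≤
          (∑ i : Fin 4, ‖∑ d ∈ DD b i X l, ((cf (fam b i) d m : ℝ) : ℂ)‖) ^ 2 :=
        pow_le_pow_left₀ (norm_nonneg _) h2 2
      refine h4.trans (h3.trans (le_of_eq ?_))
      norm_num
    refine h1.trans ?_
    rw [mul_sum]
    refine sum_le_sum fun i _ => ?_
    have h5 := fam_bound b i X l m hm1
    have h6 : 0 ≤ ‖∑ d ∈ DD b i X l, ((cf (fam b i) d m : ℝ) : ℂ)‖ := norm_nonneg _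
    simp only [hG]
    set x := ‖∑ d ∈ (DD b i X l).filter (fun d => d % 4 = 1), (js (od m) d : ℂ)‖
    set y := ‖∑ d ∈ (DD b i X l).filter (fun d => ¬ d % 4 = 1), (js (od m) d : ℂ)‖
    nlinarith [sq_nonneg (x - y)]
  have hsqf : (Finset.Icc 1 M).filter Squarefree = sqf M := by
    ext m
    rw [sqf_mem, mem_filter, mem_Icc]
  rw [hsqf]
  calc ∑ m ∈ sqf M, ‖∑ p ∈ (QFs b X).filter (fun p => Nat.Coprime p.1 l), cv p m‖ ^ 2
      ≤ ∑ m ∈ sqf M, ∑ i : Fin 4, 8 * (G i ((DD b i X l).filter (fun d => d % 4 = 1)) (od m) +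
        G i ((DD b i X l).filter (fun d => ¬ d % 4 = 1)) (od m)) := sum_le_sum hpt
    _ = ∑ i : Fin 4, 8 * (∑ m ∈ sqf M, G i ((DD b i X l).filter (fun d => d % 4 = 1)) (od m) +
        ∑ m ∈ sqf M, G i ((DD b i X l).filter (fun d => ¬ d % 4 = 1)) (od m)) := by
        rw [sum_comm]
        refine sum_congr rfl fun i _ => ?_
        rw [← sum_add_distrib, mul_sum]
    _ ≤ ∑ _i : Fin 4, 8 * (2 * (B * X) + 2 * (B * X)) := by
        refine sum_le_sum fun i _ => mul_le_mul_of_nonneg_left (add_le_add ?_ ?_) (by norm_num)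
        · exact hone i _ ((filter_subset _ _).trans (DD_sub b i X l))
        · exact hone i _ ((filter_subset _ _).trans (DD_sub b i X l))
    _ = 128 * C * ((X : ℝ) * M) ^ ε * (X + M) * X := by
        rw [sum_const, card_univ, Fintype.card_fin, hBdef, mul_comm (M : ℝ) (X : ℝ),
          add_comm (M : ℝ) (X : ℝ)]
        simp only [nsmul_eq_mul]
        push_cast
        ring
    _ ≤ _ := le_of_eq (by ring)

end

end Pool.Agent.Y770.QF
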